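import Mathlib

namespace Pool.Agent.Results.MP_9df05e_al.VariantsTransitive

/-- p-conjugacy for a semigroup structure `T` on `S`: `a = u v` and `b = v u` with `u, v` in
`S¹`. -/
def PConj {S : Type} (T : Semigroup S) (a b : S) : Prop :=
  letI := T
  ∃ u v : WithOne S, (a : WithOne S) = u * v ∧ (b : WithOne S) = v * u

/-- The variant of `S` at `a`, with product `x ∘ y = x a y`. -/
@[reducible] def variant {S : Type} (T : Semigroup S) (a : S) : Semigroup S where
  mul x y := T.mul (T.mul x a) y
  mul_assoc x y z := by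
    letI := T
    show x * a * y * a * z = x * a * (y * a * z)
    simp only [mul_assoc]

/-- A multiplication on `Fin 7` with all products of three elements equal to `0`. -/
def m (x y : Fin 7) : Fin 7 :=
  if x = 1 ∧ y = 2 then 4 else if x = 2 ∧ y = 1 then 5 else if x = 3 ∧ y = 1 then 5
  else if x = 1 ∧ y = 3 then 6 else 0

/-- The example. -/
@[reducible] def Ex : Semigroup (Fin 7) where
  mul := m
  mul_assoc := by decide

lemma pconj_iff {S : Type} (T : Semigroup S) (a b : S) :
    PConj T a b ↔ a = b ∨ ∃ u v : S, a = T.mul u v ∧ b = T.mul v u := by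
  letI := T
  constructor
  · rintro ⟨x, y, h1, h2⟩
    induction x using WithOne.recOneCoe with
    | one =>
      rw [one_mul] at h1; rw [mul_one] at h2
      exact Or.inl (WithOne.coe_injective (h1.trans h2.symm))
    | coe x =>
      induction y using WithOne.recOneCoe with
      | one =>
        rw [mul_one] at h1; rw [one_mul] at h2
        exact Or.inl (WithOne.coe_injective (h1.trans h2.symm))
      | coe y =>
        rw [← WithOne.coe_mul, WithOne.coe_inj] at h1 h2
        exact Or.inr ⟨x, y, h1, h2⟩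
  · rintro (rfl | ⟨u, v, rfl, rfl⟩)
    · exact ⟨1, a, by simp, by simp⟩
    · exact ⟨u, v, rfl, rfl⟩

theorem result : ∃ (S : Type) (T : Semigroup S),
    (∀ a : S, ∀ x y z, PConj (variant T a) x y → PConj (variant T a) y z →
      PConj (variant T a) x z) ∧
    ∃ x y z, PConj T x y ∧ PConj T y z ∧ ¬ PConj T x z := by
  refine ⟨Fin 7, Ex, fun a x y z h1 h2 => ?_, 4, 5, 6, ?_, ?_, ?_⟩
  · have h0 : ∀ a u v : Fin 7, m (m u a) v = 0 := by decide
    have key : ∀ x y, PConj (variant Ex a) x y → x = y := by
      intro x y h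
      rcases (pconj_iff _ _ _).1 h with h | ⟨u, v, h1, h2⟩
      · exact h
      · exact (h1.trans (h0 a u v)).trans (h2.trans (h0 a v u)).symm
    rw [key x y h1]; exact h2
  · exact (pconj_iff _ _ _).2 (Or.inr ⟨1, 2, rfl, rfl⟩)
  · exact (pconj_iff _ _ _).2 (Or.inr ⟨3, 1, rfl, rfl⟩)
  · rw [pconj_iff]
    show ¬ ((4 : Fin 7) = 6 ∨ ∃ u v : Fin 7, 4 = m u v ∧ 6 = m v u)
    decide

end Pool.Agent.Results.MP_9df05e_al.VariantsTransitive
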